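import Pool.Agent.Helper99.RS.Defs

/-!
# RS, leaf REG: no flux through critical zeros

`φ` is a null function, `C` a relatively open and closed part of `{φ > 0}`; all zeros of `φ` in the closure of `C` and in the support of `om` are critical.
Then `BB F φ C om = 0`. Proof: `t = 1 / (n + 1)`, `η = t ^ 2`, `ρ = tang F φ φ`, `f = om κ(ρ / η) λ(φ / t)`, `k = om - f`; `g` is a smooth function equal to `ψ(φ) 1_C` on the surface,
`ψ(s) = s` for `s ≥ 2 c` and `0` for `s ≤ c`, `c` so small that `k = 0` on `C ∩ {φ ≤ 2 c}`. Then `Q g k = 0` (`Q_green`: `g` is `0` or `φ` where `k` is not zero), `Q g f → 0` (bounded integrands with pointwise limit `0`),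
`Q om g → BB F φ C om`.
-/

set_option autoImplicit false

open MeasureTheory Filter
open scoped ContDiff Topology Manifold

namespace Pool.Agent.Helper99.RS

open Pool.Agent.Helper78.FB

private noncomputable def lm (t s : ℝ) : ℝ := Real.smoothTransition (2 - s / t)

private noncomputable def ps (c s : ℝ) : ℝ := s * Real.smoothTransition (s / c - 1)

private theorem st_diff (x : ℝ) : HasDerivAt Real.smoothTransition (deriv Real.smoothTransition x) x :=
  ((Real.smoothTransition.contDiff (n := 1)).differentiable (by simp) x).hasDerivAt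

private theorem st_deriv_of_gt {x : ℝ} (hx : 1 < x) : deriv Real.smoothTransition x = 0 := by
  have h1 : Real.smoothTransition =ᶠ[𝓝 x] fun _ => (1 : ℝ) := by
    filter_upwards [lt_mem_nhds hx] with t ht
    exact Real.smoothTransition.one_of_one_le ht.le
  rw [h1.deriv_eq, deriv_const]

private theorem st_deriv_of_lt {x : ℝ} (hx : x < 0) : deriv Real.smoothTransition x = 0 := by
  have h1 : Real.smoothTransition =ᶠ[𝓝 x] fun _ => (0 : ℝ) := by
    filter_upwards [gt_mem_nhds hx] with t ht
    exact Real.smoothTransition.zero_of_nonpos ht.le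
  rw [h1.deriv_eq, deriv_const]

private theorem st_deriv_bound : ∃ M : ℝ, 0 ≤ M ∧ ∀ x, |deriv Real.smoothTransition x| ≤ M := by
  have hc : Continuous (deriv Real.smoothTransition) :=
    (Real.smoothTransition.contDiff (n := 1)).continuous_deriv le_rfl
  obtain ⟨M, hM⟩ := (isCompact_Icc (a := (0 : ℝ)) (b := 1)).exists_bound_of_continuousOn hc.continuousOn
  refine ⟨max M 0, le_max_right _ _, fun x => ?_⟩
  by_cases h0 : x < 0
  · rw [st_deriv_of_lt h0, abs_zero]; exact le_max_right _ _
  by_cases h1 : 1 < x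
  · rw [st_deriv_of_gt h1, abs_zero]; exact le_max_right _ _
  · exact (hM x ⟨not_lt.1 h0, not_lt.1 h1⟩).trans (le_max_left _ _)

private theorem lm_contDiff (t : ℝ) : ContDiff ℝ ∞ (lm t) :=
  Real.smoothTransition.contDiff.comp (contDiff_const.sub (contDiff_id.div_const t))

private theorem ps_contDiff (c : ℝ) : ContDiff ℝ ∞ (ps c) :=
  contDiff_id.mul (Real.smoothTransition.contDiff.comp ((contDiff_id.div_const c).sub contDiff_const))

private theorem lm_one {t s : ℝ} (ht : 0 < t) (hs : s ≤ t) : lm t s = 1 := by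
  unfold lm
  apply Real.smoothTransition.one_of_one_le
  have : s / t ≤ 1 := by rwa [div_le_one ht]
  linarith

private theorem lm_zero {t s : ℝ} (ht : 0 < t) (hs : 2 * t ≤ s) : lm t s = 0 := by
  unfold lm
  apply Real.smoothTransition.zero_of_nonpos
  have : 2 ≤ s / t := by rwa [le_div_iff₀ ht]
  linarith

private theorem lm_nonneg (t s : ℝ) : 0 ≤ lm t s := Real.smoothTransition.nonneg _

private theorem lm_le (t s : ℝ) : lm t s ≤ 1 := Real.smoothTransition.le_one _

private theorem lm_abs (t s : ℝ) : |lm t s| ≤ 1 := by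
  rw [abs_of_nonneg (lm_nonneg t s)]
  exact lm_le t s

private theorem lm_deriv (t s : ℝ) : deriv (lm t) s = -(deriv Real.smoothTransition (2 - s / t) * (1 / t)) := by
  have h1 : HasDerivAt (fun s : ℝ => 2 - s / t) (-(1 / t)) s := by
    have := ((hasDerivAt_id s).div_const t).const_sub 2
    exact this
  have h2 := HasDerivAt.comp s (st_diff (2 - s / t)) h1
  have h3 : deriv (lm t) s = deriv Real.smoothTransition (2 - s / t) * -(1 / t) := h2.deriv
  rw [h3]
  ring

private theorem lm_deriv_zero {t s : ℝ} (ht : 0 < t) (hs : 2 * t < s) : deriv (lm t) s = 0 := by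
  rw [lm_deriv, st_deriv_of_lt, zero_mul, neg_zero]
  have : 2 < s / t := by rwa [lt_div_iff₀ ht]
  linarith

private theorem lm_deriv_abs {M : ℝ} (hM : ∀ x, |deriv Real.smoothTransition x| ≤ M) {t : ℝ} (ht : 0 < t)
    (s : ℝ) : |deriv (lm t) s| ≤ M / t := by
  rw [lm_deriv, abs_neg, abs_mul, abs_of_pos (one_div_pos.2 ht), mul_one_div]
  exact div_le_div_of_nonneg_right (hM _) ht.le

private theorem ps_zero {c s : ℝ} (hc : 0 < c) (hs : s ≤ c) : ps c s = 0 := by
  unfold ps
  rw [Real.smoothTransition.zero_of_nonpos, mul_zero]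
  have : s / c ≤ 1 := by rwa [div_le_one hc]
  linarith

private theorem ps_self {c s : ℝ} (hc : 0 < c) (hs : 2 * c ≤ s) : ps c s = s := by
  unfold ps
  rw [Real.smoothTransition.one_of_one_le, mul_one]
  have : 2 ≤ s / c := by rwa [le_div_iff₀ hc]
  linarith

private theorem ps_abs (c s : ℝ) : |ps c s| ≤ |s| := by
  unfold ps
  rw [abs_mul, abs_of_nonneg (Real.smoothTransition.nonneg _)]
  exact mul_le_of_le_one_right (abs_nonneg _) (Real.smoothTransition.le_one _)

private theorem ps_deriv (c s : ℝ) : deriv (ps c) s =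
    Real.smoothTransition (s / c - 1) + s * (deriv Real.smoothTransition (s / c - 1) * (1 / c)) := by
  have h1 : HasDerivAt (fun s : ℝ => s / c - 1) (1 / c) s := by
    have := ((hasDerivAt_id s).div_const c).sub_const 1
    exact this
  have h2 := HasDerivAt.comp s (st_diff (s / c - 1)) h1
  have h3 := (hasDerivAt_id s).mul h2
  have h4 : deriv (ps c) s = 1 * Real.smoothTransition (s / c - 1) +
      s * (deriv Real.smoothTransition (s / c - 1) * (1 / c)) := h3.deriv
  rw [h4, one_mul]

private theorem ps_deriv_abs {M : ℝ} (hM0 : 0 ≤ M) (hM : ∀ x, |deriv Real.smoothTransition x| ≤ M) (c s : ℝ) : |deriv (ps c) s| ≤ 1 + 2 * M := by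
  rw [ps_deriv]
  refine (abs_add_le _ _).trans (add_le_add ?_ ?_)
  · rw [abs_of_nonneg (Real.smoothTransition.nonneg _)]
    exact Real.smoothTransition.le_one _
  · by_cases h0 : s / c - 1 < 0
    · rw [st_deriv_of_lt h0, zero_mul, mul_zero, abs_zero]
      positivity
    by_cases h1 : 1 < s / c - 1
    · rw [st_deriv_of_gt h1, zero_mul, mul_zero, abs_zero]
      positivity
    · have h2 : |s / c| ≤ 2 := by
        rw [abs_le]
        constructor <;> linarith
      have h3 : s * (deriv Real.smoothTransition (s / c - 1) * (1 / c)) =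
          (s / c) * deriv Real.smoothTransition (s / c - 1) := by
        ring
      rw [h3, abs_mul]
      exact mul_le_mul h2 (hM _) (abs_nonneg _) (by norm_num)

variable {F φ : E → ℝ} {C : Set E}

/-- a smooth function equal to `ψ(φ) 1_C` near every point of the surface -/
private theorem ext (h : FBMS F) (hφ : ContDiff ℝ ∞ φ) (P : Piece F φ C) {c : ℝ} (hc : 0 < c) :
    ∃ g : E → ℝ, ContDiff ℝ ∞ g ∧ ∀ y ∈ surf F, (y ∈ C → g =ᶠ[𝓝 y] fun x => ps c (φ x)) ∧
      (y ∉ C → g =ᶠ[𝓝 y] fun _ => 0) := by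
  have hsc : IsClosed (surf F) := (isCompact_surf h).isClosed
  have hcφ := hφ.continuous
  have hA : IsClosed {y | y ∈ C ∧ c ≤ φ y} := by
    rw [← closure_subset_iff_isClosed]
    intro y hy
    have h1 : y ∈ surf F := closure_minimal (fun x hx => (P.sub x hx.1).1) hsc hy
    have h2 : c ≤ φ y := closure_minimal (fun x hx => hx.2) (isClosed_le continuous_const hcφ) hy
    refine ⟨?_, h2⟩
    by_contra hyC
    obtain ⟨ε, hε, h3⟩ := P.cls y h1 (hc.trans_le h2) hyC
    obtain ⟨x, hx, hx'⟩ := Metric.mem_closure_iff.1 hy ε hε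
    exact h3 x (P.sub x hx.1).1 (by rwa [Metric.mem_ball, dist_comm]) hx.1
  have hB : IsClosed {y | y ∈ surf F ∧ y ∉ C ∧ c ≤ φ y} := by
    rw [← closure_subset_iff_isClosed]
    intro y hy
    have h1 : y ∈ surf F := closure_minimal (fun x hx => hx.1) hsc hy
    have h2 : c ≤ φ y := closure_minimal (fun x hx => hx.2.2) (isClosed_le continuous_const hcφ) hy
    refine ⟨h1, ?_, h2⟩
    intro hyC
    obtain ⟨ε, hε, h3⟩ := P.opn y hyC
    obtain ⟨x, hx, hx'⟩ := Metric.mem_closure_iff.1 hy ε hε
    exact hx.2.1 (h3 x hx.1 (by rwa [Metric.mem_ball, dist_comm]))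
  have hd : Disjoint {y | y ∈ surf F ∧ y ∉ C ∧ c ≤ φ y} {y | y ∈ C ∧ c ≤ φ y} := by
    rw [Set.disjoint_left]
    intro y h1 h2
    exact h1.2.1 h2.1
  obtain ⟨χ, h0, h1, -⟩ := exists_contMDiffMap_zero_one_nhds_of_isClosed (n := (⊤ : ℕ∞)) 𝓘(ℝ, E) hB hA hd
  refine ⟨fun y => χ y * ps c (φ y), (contMDiff_iff_contDiff.1 χ.contMDiff).mul ((ps_contDiff c).comp hφ), ?_⟩
  intro y hy
  rcases lt_or_ge (φ y) c with hyc | hyc
  · have h2 : ∀ᶠ x in 𝓝 y, ps c (φ x) = 0 := by
      filter_upwards [hcφ.continuousAt.eventually (gt_mem_nhds hyc)] with x hx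
      exact ps_zero hc hx.le
    constructor
    · intro _
      filter_upwards [h2] with x hx
      rw [hx, mul_zero]
    · intro _
      filter_upwards [h2] with x hx
      rw [hx, mul_zero]
  · constructor
    · intro hyC
      have h3 : ∀ᶠ x in 𝓝 y, χ x = 1 := h1.filter_mono
        (nhds_le_nhdsSet (show y ∈ {y | y ∈ C ∧ c ≤ φ y} from ⟨hyC, hyc⟩))
      filter_upwards [h3] with x hx
      rw [hx, one_mul]
    · intro hyC
      have h3 : ∀ᶠ x in 𝓝 y, χ x = 0 := h0.filter_mono
        (nhds_le_nhdsSet (show y ∈ {y | y ∈ surf F ∧ y ∉ C ∧ c ≤ φ y} from ⟨hy, hyC, hyc⟩))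
      filter_upwards [h3] with x hx
      rw [hx, zero_mul]

private theorem tang_congr {f g g' : E → ℝ} {y : E} (hg : g =ᶠ[𝓝 y] g') : tang F f g y = tang F f g' y := by
  unfold tang
  simp only [fun i => pd_congr i hg]

private theorem lap_congr {g g' : E → ℝ} {y : E} (hg : g =ᶠ[𝓝 y] g') : lap F g y = lap F g' y := by
  have h1 : ∀ i, pd i g =ᶠ[𝓝 y] pd i g' := fun i => by
    filter_upwards [eventually_eventually_nhds.2 hg] with x hx
    exact pd_congr i hx
  unfold lap
  simp only [fun i j => pd_congr i (h1 j)]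

private theorem nd_congr {g g' : E → ℝ} {y : E} (hg : g =ᶠ[𝓝 y] g') : nd g y = nd g' y := by
  unfold nd
  simp only [fun i => pd_congr i hg]

private theorem tang_zero (f : E → ℝ) (y : E) : tang F f (fun _ => 0) y = 0 := by
  unfold tang
  simp only [pd_const, mul_zero, Finset.sum_const_zero, sub_zero]

private theorem lap_zero (y : E) : lap F (fun _ => 0) y = 0 := by
  unfold lap
  simp only [pd_const, mul_zero, Finset.sum_const_zero, sub_zero]

private theorem nd_zero (y : E) : nd (fun _ => 0) y = 0 := by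
  unfold nd
  simp only [pd_const, mul_zero, Finset.sum_const_zero]

private theorem tang_mul_right {f g k : E → ℝ} (hg : ContDiff ℝ ∞ g) (hk : ContDiff ℝ ∞ k) (y : E) :
    tang F f (fun x => g x * k x) y = k y * tang F f g y + g y * tang F f k y := by
  unfold tang
  simp only [fun i => pd_mul i hg hk, Fin.sum_univ_three]
  ring

private theorem tang_comp_right {f g : E → ℝ} {ψ : ℝ → ℝ} (hψ : ContDiff ℝ ∞ ψ) (hg : ContDiff ℝ ∞ g) (y : E) :
    tang F f (fun x => ψ (g x)) y = deriv ψ (g y) * tang F f g y := by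
  rw [tang_comm, tang_comp hψ hg, tang_comm]

/-- `|tang(φ, ρ)| ≤ K ρ` for `ρ = tang(φ, φ)` -/
private theorem tang_rho (h : FBMS F) (hφ : ContDiff ℝ ∞ φ) :
    ∃ K : ℝ, 0 ≤ K ∧ ∀ y ∈ surf F, |tang F φ (tang F φ φ) y| ≤ K * tang F φ φ y := by
  have hF := h.smooth
  obtain ⟨G, hG⟩ : ∃ G : Fin 3 → E → ℝ, ∀ i, G i = fun y => pd i φ y - (∑ j, pd j F y * pd j φ y) * pd i F y :=
    ⟨_, fun i => rfl⟩
  have hGc : ∀ i, ContDiff ℝ ∞ (G i) := fun i => by
    rw [hG i]
    exact (contDiff_pd i hφ).sub
      ((ContDiff.sum fun j _ => (contDiff_pd j hF).mul (contDiff_pd j hφ)).mul (contDiff_pd i hF))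
  obtain ⟨M, hM⟩ := (isCompact_surf h).exists_bound_of_continuousOn
    (f := fun y => ∑ i, ∑ k, |pd k (G i) y|)
    (continuous_finsetSum _ fun i _ => continuous_finsetSum _ fun k _ =>
      (contDiff_pd k (hGc i)).continuous.abs).continuousOn
  obtain ⟨U, hU, hsub, hsq⟩ := h.unit
  have hρ : ∀ y ∈ U, tang F φ φ y = ∑ i, G i y * G i y := by
    intro y hy
    have h1 := hsq y hy
    rw [tang]
    simp only [hG, Fin.sum_univ_three] at h1 ⊢
    linear_combination (-(pd 0 F y * pd 0 φ y + pd 1 F y * pd 1 φ y + pd 2 F y * pd 2 φ y) ^ 2) * h1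
  refine ⟨2 * |M|, by positivity, fun y hy => ?_⟩
  have hyU := hsub hy
  have e0 : tang F φ φ =ᶠ[𝓝 y] fun x => ∑ i, G i x * G i x := by
    filter_upwards [hU.mem_nhds hyU] with x hx
    exact hρ x hx
  have e1 : ∀ k, pd k (tang F φ φ) y = ∑ i, 2 * (G i y * pd k (G i) y) := by
    intro k
    rw [pd_congr k e0, pd_sum k Finset.univ (fun i x => G i x * G i x) fun i _ => (hGc i).mul (hGc i)]
    refine Finset.sum_congr rfl fun i _ => ?_
    rw [pd_mul k (hGc i) (hGc i)]
    ring
  have e2 : tang F φ (tang F φ φ) y = ∑ k, G k y * pd k (tang F φ φ) y := by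
    conv_lhs => rw [tang]
    simp only [hG, Fin.sum_univ_three]
    ring
  have e3 : tang F φ (tang F φ φ) y = ∑ i, ∑ k, 2 * (G k y * G i y) * pd k (G i) y := by
    rw [e2, Finset.sum_comm]
    refine Finset.sum_congr rfl fun k _ => ?_
    rw [e1 k, Finset.mul_sum]
    refine Finset.sum_congr rfl fun i _ => ?_
    ring
  have hr : tang F φ φ y = ∑ i, G i y ^ 2 := by
    rw [hρ y hyU]
    exact Finset.sum_congr rfl fun i _ => (sq _).symm
  have hr0 : 0 ≤ tang F φ φ y := tang_nonneg h φ hy
  have h2 : ∀ i k, |G k y * G i y| ≤ tang F φ φ y := by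
    intro i k
    have h3 : G i y ^ 2 ≤ tang F φ φ y := by
      rw [hr]
      exact Finset.single_le_sum (f := fun i => G i y ^ 2) (fun i _ => sq_nonneg _) (Finset.mem_univ i)
    have h4 : G k y ^ 2 ≤ tang F φ φ y := by
      rw [hr]
      exact Finset.single_le_sum (f := fun i => G i y ^ 2) (fun i _ => sq_nonneg _) (Finset.mem_univ k)
    rw [abs_le]
    constructor <;> nlinarith [sq_nonneg (G k y + G i y), sq_nonneg (G k y - G i y)]
  rw [e3]
  calc |∑ i, ∑ k, 2 * (G k y * G i y) * pd k (G i) y|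
      ≤ ∑ i, ∑ k, 2 * tang F φ φ y * |pd k (G i) y| := by
        refine (Finset.abs_sum_le_sum_abs _ _).trans (Finset.sum_le_sum fun i _ => ?_)
        refine (Finset.abs_sum_le_sum_abs _ _).trans (Finset.sum_le_sum fun k _ => ?_)
        rw [abs_mul, abs_mul, abs_of_pos (two_pos : (0 : ℝ) < 2)]
        have := h2 i k
        gcongr
    _ = 2 * tang F φ φ y * ∑ i, ∑ k, |pd k (G i) y| := by
        simp only [Finset.mul_sum]
    _ ≤ 2 * tang F φ φ y * |M| := by
        have h3 := hM y hy
        rw [Real.norm_eq_abs] at h3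
        have h4 := (le_abs_self _).trans (h3.trans (le_abs_self M))
        exact mul_le_mul_of_nonneg_left h4 (by positivity)
    _ = 2 * |M| * tang F φ φ y := by ring

private noncomputable def ff (F φ om : E → ℝ) (t : ℝ) (y : E) : ℝ :=
  om y * (lm (t ^ 2) (tang F φ φ y) * lm t (φ y))

private theorem ff_contDiff (h : FBMS F) (hφ : ContDiff ℝ ∞ φ) {om : E → ℝ} (ho : ContDiff ℝ ∞ om) (t : ℝ) :
    ContDiff ℝ ∞ (ff F φ om t) :=
  ho.mul (((lm_contDiff _).comp (contDiff_tang h.smooth hφ hφ)).mul ((lm_contDiff _).comp hφ))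

private theorem ff_bound (h : FBMS F) (hφ : ContDiff ℝ ∞ φ) {om : E → ℝ} (ho : ContDiff ℝ ∞ om) :
    ∃ B : ℝ, 0 ≤ B ∧ ∀ t : ℝ, 0 < t → t ≤ 1 → ∀ y ∈ surf F,
      |tang F φ (ff F φ om t) y| ≤ B ∧ |ff F φ om t y| ≤ B := by
  obtain ⟨M, hM0, hM⟩ := st_deriv_bound
  obtain ⟨K, hK0, hK⟩ := tang_rho h hφ
  obtain ⟨B0, hB0⟩ := (isCompact_surf h).exists_bound_of_continuousOn ho.continuous.continuousOn
  obtain ⟨B1, hB1⟩ := (isCompact_surf h).exists_bound_of_continuousOn
    (contDiff_tang h.smooth hφ ho).continuous.continuousOn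
  have hρc := contDiff_tang h.smooth hφ hφ
  refine ⟨|B1| + |B0| * (2 * M * K + 2 * M) + |B0|, by positivity, fun t ht ht1 y hy => ?_⟩
  have ht2 : 0 < t ^ 2 := by positivity
  have ho1 : |om y| ≤ |B0| := (hB0 y hy).trans (le_abs_self _)
  have ho2 : |tang F φ om y| ≤ |B1| := (hB1 y hy).trans (le_abs_self _)
  have hr0 : 0 ≤ tang F φ φ y := tang_nonneg h φ hy
  have ca : ContDiff ℝ ∞ (fun x => lm (t ^ 2) (tang F φ φ x)) := (lm_contDiff _).comp hρc
  have cb : ContDiff ℝ ∞ (fun x => lm t (φ x)) := (lm_contDiff _).comp hφ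
  have e1 : tang F φ (ff F φ om t) y =
      (lm (t ^ 2) (tang F φ φ y) * lm t (φ y)) * tang F φ om y +
      om y * (lm t (φ y) * (deriv (lm (t ^ 2)) (tang F φ φ y) * tang F φ (tang F φ φ) y) +
        lm (t ^ 2) (tang F φ φ y) * (deriv (lm t) (φ y) * tang F φ φ y)) := by
    have e2 := tang_mul_right (F := F) (f := φ) ho (ca.mul cb) y
    have e3 := tang_mul_right (F := F) (f := φ) ca cb y
    have e4 := tang_comp_right (F := F) (f := φ) (lm_contDiff (t ^ 2)) hρc y
    have e5 := tang_comp_right (F := F) (f := φ) (lm_contDiff t) hφ y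
    rw [e4, e5] at e3
    rw [e3] at e2
    exact e2
  have ha := lm_abs (t ^ 2) (tang F φ φ y)
  have hb := lm_abs t (φ y)
  have k1 : |deriv (lm (t ^ 2)) (tang F φ φ y) * tang F φ (tang F φ φ) y| ≤ 2 * M * K := by
    by_cases h1 : 2 * t ^ 2 < tang F φ φ y
    · rw [lm_deriv_zero ht2 h1, zero_mul, abs_zero]
      positivity
    · rw [abs_mul]
      have h2 := lm_deriv_abs hM ht2 (tang F φ φ y)
      have h3 := hK y hy
      calc |deriv (lm (t ^ 2)) (tang F φ φ y)| * |tang F φ (tang F φ φ) y|
          ≤ (M / t ^ 2) * (K * (2 * t ^ 2)) := by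
            refine mul_le_mul h2 (h3.trans ?_) (abs_nonneg _) (by positivity)
            exact mul_le_mul_of_nonneg_left (not_lt.1 h1) hK0
        _ = 2 * M * K := by
            field_simp
  have k2 : |lm (t ^ 2) (tang F φ φ y) * (deriv (lm t) (φ y) * tang F φ φ y)| ≤ 2 * M := by
    by_cases h1 : 2 * t ^ 2 ≤ tang F φ φ y
    · rw [lm_zero ht2 h1, zero_mul, abs_zero]
      positivity
    · rw [abs_mul, abs_mul, abs_of_nonneg hr0]
      have h2 := lm_deriv_abs hM ht (φ y)
      calc |lm (t ^ 2) (tang F φ φ y)| * (|deriv (lm t) (φ y)| * tang F φ φ y)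
          ≤ 1 * ((M / t) * (2 * t ^ 2)) := by
            refine mul_le_mul ha ?_ (by positivity) zero_le_one
            exact mul_le_mul h2 (not_le.1 h1).le hr0 (by positivity)
        _ = 2 * M * t := by
            field_simp
        _ ≤ 2 * M := by
            have : 0 ≤ 2 * M := by positivity
            nlinarith
  constructor
  · rw [e1]
    refine (abs_add_le _ _).trans ?_
    have h1 : |lm (t ^ 2) (tang F φ φ y) * lm t (φ y) * tang F φ om y| ≤ |B1| := by
      rw [abs_mul, abs_mul]
      calc |lm (t ^ 2) (tang F φ φ y)| * |lm t (φ y)| * |tang F φ om y| ≤ 1 * 1 * |B1| := by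
            gcongr
        _ = |B1| := by ring
    have h2 : |om y * (lm t (φ y) * (deriv (lm (t ^ 2)) (tang F φ φ y) * tang F φ (tang F φ φ) y) +
        lm (t ^ 2) (tang F φ φ y) * (deriv (lm t) (φ y) * tang F φ φ y))| ≤ |B0| * (2 * M * K + 2 * M) := by
      rw [abs_mul]
      refine mul_le_mul ho1 ?_ (abs_nonneg _) (abs_nonneg _)
      refine (abs_add_le _ _).trans (add_le_add ?_ k2)
      rw [abs_mul]
      calc |lm t (φ y)| * |deriv (lm (t ^ 2)) (tang F φ φ y) * tang F φ (tang F φ φ) y|
          ≤ 1 * (2 * M * K) := mul_le_mul hb k1 (abs_nonneg _) zero_le_one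
        _ = 2 * M * K := one_mul _
    have h3 := abs_nonneg B0
    linarith
  · unfold ff
    rw [abs_mul, abs_mul]
    have h1 : |om y| * (|lm (t ^ 2) (tang F φ φ y)| * |lm t (φ y)|) ≤ |B0| * (1 * 1) := by
      gcongr
    have h2 : 0 ≤ |B1| + |B0| * (2 * M * K + 2 * M) := by positivity
    linarith

/-- near the zeros of `φ` in the closure of `C`, the function `ρ` is small -/
private theorem small (h : FBMS F) (hφ : ContDiff ℝ ∞ φ) (P : Piece F φ C) {om : E → ℝ}
    (hs : ∀ y ∈ surf F, y ∈ tsupport om → y ∈ closure C → φ y = 0 → tang F φ φ y = 0) {η : ℝ} (hη : 0 < η) :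
    ∃ t : ℝ, 0 < t ∧ ∀ y ∈ C, y ∈ tsupport om → φ y < t → tang F φ φ y < η := by
  have hsc : IsClosed (surf F) := (isCompact_surf h).isClosed
  have hcs : closure C ⊆ surf F := closure_minimal (fun x hx => (P.sub x hx).1) hsc
  have hρc := (contDiff_tang h.smooth hφ hφ).continuous
  have hK : IsCompact (closure C ∩ (tsupport om ∩ {y | η ≤ tang F φ φ y})) := by
    refine (isCompact_surf h).of_isClosed_subset ?_ (fun y hy => hcs hy.1)
    exact isClosed_closure.inter ((isClosed_tsupport om).inter (isClosed_le continuous_const hρc))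
  rcases Set.eq_empty_or_nonempty (closure C ∩ (tsupport om ∩ {y | η ≤ tang F φ φ y})) with he | hne
  · refine ⟨1, one_pos, fun y hy hyo _ => ?_⟩
    by_contra hcon
    have : y ∈ (∅ : Set E) := by
      rw [← he]
      exact ⟨subset_closure hy, hyo, not_lt.1 hcon⟩
    exact this
  · obtain ⟨z, hz, hmin⟩ := hK.exists_isMinOn hne hφ.continuous.continuousOn
    have hz0 : 0 ≤ φ z := closure_minimal (fun x hx => (P.sub x hx).2.le)
      (isClosed_le continuous_const hφ.continuous) hz.1
    have hz1 : 0 < φ z := by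
      rcases hz0.eq_or_lt with h1 | h1
      · exfalso
        have h2 := hs z (hcs hz.1) hz.2.1 hz.1 h1.symm
        have h3 : η ≤ tang F φ φ z := hz.2.2
        linarith
      · exact h1
    refine ⟨φ z, hz1, fun y hy hyo hyz => ?_⟩
    by_contra hcon
    have h1 : φ z ≤ φ y := hmin ⟨subset_closure hy, hyo, not_lt.1 hcon⟩
    linarith

private theorem area_zero' : area F (fun _ => 0) = 0 := by simp [area]

private theorem len_zero' : len F (fun _ => 0) = 0 := by simp [len]

private theorem bdry_surf {y : E} (hy : y ∈ bdry F) : y ∈ surf F := ⟨hy.1.le, hy.2⟩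

set_option linter.unusedVariables false in
/-- leaf REG (the hypothesis `hn` is not used) -/
theorem reg (h : FBMS F) (N : Null F φ) (P : Piece F φ C) {om : E → ℝ} (ho : ContDiff ℝ ∞ om) (hn : ∀ y, 0 ≤ om y)
    (hs : ∀ y ∈ surf F, y ∈ tsupport om → y ∈ closure C → φ y = 0 → tang F φ φ y = 0) : BB F φ C om = 0 := by
  have hφ := N.smooth
  obtain ⟨t, htd⟩ : ∃ t : ℕ → ℝ, ∀ n, t n = 1 / ((n : ℝ) + 1) := ⟨_, fun n => rfl⟩
  have ht0 : ∀ n, 0 < t n := fun n => by
    rw [htd]
    positivity
  have ht1 : ∀ n, t n ≤ 1 := fun n => by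
    rw [htd, div_le_one (by positivity)]
    have : (0 : ℝ) ≤ n := Nat.cast_nonneg n
    linarith
  have htl : Tendsto t atTop (𝓝 0) := by
    have h1 : t = fun n : ℕ => 1 / ((n : ℝ) + 1) := funext htd
    rw [h1]
    exact tendsto_one_div_add_atTop_nhds_zero_nat
  have hsm : ∀ n, ∃ c : ℝ, 0 < c ∧ 2 * c < t n ∧ ∀ y ∈ C, y ∈ tsupport om → φ y ≤ 2 * c →
      tang F φ φ y ≤ t n ^ 2 := by
    intro n
    obtain ⟨s, hs0, hs1⟩ := small h hφ P hs (η := t n ^ 2) (pow_pos (ht0 n) 2)
    have h1 := ht0 n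
    have h2 : 0 < min s (t n) := lt_min hs0 h1
    refine ⟨min s (t n) / 4, by positivity, ?_, ?_⟩
    · have := min_le_right s (t n)
      linarith
    · intro y hy hyo hyc
      have := min_le_left s (t n)
      exact (hs1 y hy hyo (by linarith)).le
  choose c hc0 hc1 hc2 using hsm
  choose g hg hgy using fun n => ext h hφ P (hc0 n)
  obtain ⟨B, hB0, hB⟩ := ff_bound h hφ ho
  obtain ⟨M, hM0, hM⟩ := st_deriv_bound
  obtain ⟨Bφ, hBφ⟩ := (isCompact_surf h).exists_bound_of_continuousOn hφ.continuous.continuousOn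
  obtain ⟨BA, hBA⟩ := (isCompact_surf h).exists_bound_of_continuousOn
    (contDiff_normA h.smooth).continuous.continuousOn
  have hfc : ∀ n, ContDiff ℝ ∞ (ff F φ om (t n)) := fun n => ff_contDiff h hφ ho (t n)
  -- values of `g n`
  have g1 : ∀ n, ∀ y ∈ surf F, y ∈ C → g n y = ps (c n) (φ y) := fun n y hy hyC =>
    ((hgy n y hy).1 hyC).eq_of_nhds
  have g0 : ∀ n, ∀ y ∈ surf F, y ∉ C → g n y = 0 := fun n y hy hyC => ((hgy n y hy).2 hyC).eq_of_nhds
  have gb : ∀ n, ∀ y ∈ surf F, |g n y| ≤ |Bφ| := by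
    intro n y hy
    by_cases hyC : y ∈ C
    · rw [g1 n y hy hyC]
      exact (ps_abs _ _).trans ((hBφ y hy).trans (le_abs_self _))
    · rw [g0 n y hy hyC, abs_zero]
      exact abs_nonneg _
  have gl : ∀ y ∈ surf F, Tendsto (fun n => g n y) atTop (𝓝 (ind C y * φ y)) := by
    intro y hy
    by_cases hyC : y ∈ C
    · have h1 : ind C y = 1 := if_pos hyC
      rw [h1, one_mul]
      refine tendsto_const_nhds.congr' ?_
      filter_upwards [htl.eventually (gt_mem_nhds (P.sub y hyC).2)] with n hn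
      rw [g1 n y hy hyC, ps_self (hc0 n) ((hc1 n).le.trans hn.le)]
    · have h1 : ind C y = 0 := if_neg hyC
      rw [h1, zero_mul]
      refine tendsto_const_nhds.congr fun n => ?_
      rw [g0 n y hy hyC]
  -- the limit of `Q om (g n)`
  have L1 : Tendsto (fun n => Q F om (g n)) atTop (𝓝 (BB F φ C om)) := by
    have e1 : ∀ n, Q F om (g n) = -area F (fun y => g n y * (lap F om y + normA F y * om y)) +
        len F (fun y => g n y * (nd om y - om y)) := fun n => Q_green h ho (hg n)
    simp only [e1]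
    have c1 : Continuous fun y => lap F om y + normA F y * om y :=
      ((contDiff_lap h.smooth ho).add ((contDiff_normA h.smooth).mul ho)).continuous
    have c2 : Continuous fun y => nd om y - om y := ((contDiff_nd ho).sub ho).continuous
    obtain ⟨B1, hB1⟩ := (isCompact_surf h).exists_bound_of_continuousOn c1.continuousOn
    obtain ⟨B2, hB2⟩ := (isCompact_surf h).exists_bound_of_continuousOn c2.continuousOn
    refine Tendsto.add (Tendsto.neg ?_) ?_
    · refine area_tendsto h _ _ (fun n => ((hg n).continuous.mul c1).continuousOn) (|Bφ| * |B1|)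
        (fun n y hy => ?_) (fun y hy => ?_)
      · rw [abs_mul]
        exact mul_le_mul (gb n y hy) ((hB1 y hy).trans (le_abs_self _)) (abs_nonneg _) (abs_nonneg _)
      · exact (gl y hy).mul_const _
    · refine len_tendsto h _ _ (fun n => ((hg n).continuous.mul c2).continuousOn) (|Bφ| * |B2|)
        (fun n y hy => ?_) (fun y hy => ?_)
      · rw [abs_mul]
        exact mul_le_mul (gb n y (bdry_surf hy)) ((hB2 y (bdry_surf hy)).trans (le_abs_self _)) (abs_nonneg _)
          (abs_nonneg _)
      · exact (gl y (bdry_surf hy)).mul_const _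
  -- the part away from the zeros
  have K0 : ∀ n, Q F (fun y => om y - ff F φ om (t n) y) (g n) = 0 := by
    intro n
    have hk : ContDiff ℝ ∞ (fun y => om y - ff F φ om (t n) y) := ho.sub (hfc n)
    have kz : ∀ y ∈ C, φ y ≤ 2 * c n → om y - ff F φ om (t n) y = 0 := by
      intro y hyC hyc
      by_cases hyo : y ∈ tsupport om
      · have h1 := hc2 n y hyC hyo hyc
        unfold ff
        rw [lm_one (pow_pos (ht0 n) 2) h1, lm_one (ht0 n) (hyc.trans (hc1 n).le)]
        ring
      · have h1 : om y = 0 := image_eq_zero_of_notMem_tsupport hyo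
        unfold ff
        rw [h1]
        ring
    have gz : ∀ y ∈ C, 2 * c n < φ y → g n =ᶠ[𝓝 y] φ := by
      intro y hyC hyc
      filter_upwards [(hgy n y (P.sub y hyC).1).1 hyC, hφ.continuous.continuousAt.eventually (lt_mem_nhds hyc)]
        with x hx hx'
      rw [hx, ps_self (hc0 n) hx'.le]
    rw [Q_comm, Q_green h (hg n) hk]
    rw [area_congr (g := fun _ => 0) (fun y hy => ?_) h, len_congr (g := fun _ => 0) (fun y hy => ?_) h,
      area_zero', len_zero', neg_zero, add_zero]
    · have hy' := bdry_surf hy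
      by_cases hyC : y ∈ C
      · rcases le_or_gt (φ y) (2 * c n) with h1 | h1
        · simp only [kz y hyC h1, zero_mul]
        · have h2 := gz y hyC h1
          simp only [nd_congr h2, h2.eq_of_nhds, N.nd y hy, sub_self, mul_zero]
      · have h2 := (hgy n y hy').2 hyC
        simp only [nd_congr h2, h2.eq_of_nhds, nd_zero, sub_self, mul_zero]
    · by_cases hyC : y ∈ C
      · rcases le_or_gt (φ y) (2 * c n) with h1 | h1
        · simp only [kz y hyC h1, zero_mul]
        · have h2 := gz y hyC h1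
          simp only [lap_congr h2, h2.eq_of_nhds, N.lap y hy]
          ring
      · have h2 := (hgy n y hy).2 hyC
        simp only [lap_congr h2, h2.eq_of_nhds, lap_zero, mul_zero, add_zero]
  have e2 : ∀ n, Q F om (g n) = Q F (ff F φ om (t n)) (g n) := by
    intro n
    have hk : ContDiff ℝ ∞ (fun y => om y - ff F φ om (t n) y) := ho.sub (hfc n)
    have e3 := Q_add_left h (hfc n) hk (hg n)
    have e4 : (fun y => ff F φ om (t n) y + (om y - ff F φ om (t n) y)) = om := by
      funext y
      ring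
    rw [K0 n, add_zero] at e3
    rw [← e3]
    simp only [e4]
  -- `f n` is zero near every point of `C` for large `n`
  have fz : ∀ y ∈ C, ∀ᶠ n in atTop, ff F φ om (t n) =ᶠ[𝓝 y] fun _ => 0 := by
    intro y hyC
    have h1 : 0 < φ y / 2 := by
      have := (P.sub y hyC).2
      linarith
    filter_upwards [htl.eventually (gt_mem_nhds h1)] with n hn
    have h2 : 2 * t n < φ y := by linarith
    filter_upwards [hφ.continuous.continuousAt.eventually (lt_mem_nhds h2)] with x hx
    unfold ff
    rw [lm_zero (ht0 n) hx.le, mul_zero, mul_zero]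
  have L2 : Tendsto (fun n => Q F (ff F φ om (t n)) (g n)) atTop (𝓝 0) := by
    have e5 : (0 : ℝ) = area F (fun _ => 0) - len F (fun _ => 0) := by
      rw [area_zero', len_zero', sub_zero]
    rw [e5]
    unfold Q
    refine Tendsto.sub ?_ ?_
    · refine area_tendsto h _ _ (fun n => ?_) ((1 + 2 * M) * B + |BA| * (B * |Bφ|)) (fun n y hy => ?_)
        (fun y hy => ?_)
      · exact ((contDiff_tang h.smooth (hfc n) (hg n)).sub
          ((contDiff_normA h.smooth).mul ((hfc n).mul (hg n)))).continuous.continuousOn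
      · refine (abs_sub _ _).trans (add_le_add ?_ ?_)
        · by_cases hyC : y ∈ C
          · rw [tang_congr ((hgy n y hy).1 hyC), tang_comp_right (ps_contDiff _) hφ, abs_mul, tang_comm]
            exact mul_le_mul (ps_deriv_abs hM0 hM _ _) (hB (t n) (ht0 n) (ht1 n) y hy).1 (abs_nonneg _)
              (by positivity)
          · rw [tang_congr ((hgy n y hy).2 hyC), tang_zero, abs_zero]
            positivity
        · rw [abs_mul, abs_mul]
          refine mul_le_mul ((hBA y hy).trans (le_abs_self _)) ?_ (by positivity) (abs_nonneg _)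
          exact mul_le_mul (hB (t n) (ht0 n) (ht1 n) y hy).2 (gb n y hy) (abs_nonneg _) hB0
      · by_cases hyC : y ∈ C
        · refine tendsto_const_nhds.congr' ?_
          filter_upwards [fz y hyC] with n hn
          rw [tang_comm, tang_congr hn, tang_zero, hn.eq_of_nhds]
          ring
        · refine tendsto_const_nhds.congr fun n => ?_
          rw [tang_congr ((hgy n y hy).2 hyC), tang_zero, g0 n y hy hyC]
          ring
    · refine len_tendsto h _ _ (fun n => ((hfc n).mul (hg n)).continuous.continuousOn) (B * |Bφ|)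
        (fun n y hy => ?_) (fun y hy => ?_)
      · rw [abs_mul]
        exact mul_le_mul (hB (t n) (ht0 n) (ht1 n) y (bdry_surf hy)).2 (gb n y (bdry_surf hy)) (abs_nonneg _) hB0
      · by_cases hyC : y ∈ C
        · refine tendsto_const_nhds.congr' ?_
          filter_upwards [fz y hyC] with n hn
          rw [hn.eq_of_nhds, zero_mul]
        · refine tendsto_const_nhds.congr fun n => ?_
          rw [g0 n y (bdry_surf hy) hyC, mul_zero]
  simp only [e2] at L1
  exact tendsto_nhds_unique L1 L2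

end Pool.Agent.Helper99.RS
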